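import Mathlib
import Pool.Agent.R487.SternZero

/-! # Stern polynomials at prime indices are irreducible -/

set_option autoImplicit false

namespace Pool.Agent.Results.MP_201fbb_nt.PrimeIndexIrreducible

open Polynomial

/-- The Stern polynomials: `B 0 = 0`, `B 1 = 1`, and for `n ≥ 1`
`B (2n) = X * B n`, `B (2n+1) = B n + B (n+1)`. -/
noncomputable def stern : ℕ → ℤ[X]
  | 0 => 0
  | 1 => 1
  | n + 2 =>
    if (n + 2) % 2 = 0 then X * stern ((n + 2) / 2)
    else stern ((n + 2) / 2) + stern ((n + 2) / 2 + 1)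
  decreasing_by all_goals omega

theorem stern_one : stern 1 = 1 := by
  rw [stern]

theorem stern_even (n : ℕ) (hn : 1 ≤ n) : stern (2 * n) = X * stern n := by
  obtain ⟨k, rfl⟩ : ∃ k, n = k + 1 := ⟨n - 1, by omega⟩
  rw [show 2 * (k + 1) = 2 * k + 2 by ring, stern, if_pos (by omega),
    show (2 * k + 2) / 2 = k + 1 by omega]

theorem stern_odd (n : ℕ) (hn : 1 ≤ n) : stern (2 * n + 1) = stern n + stern (n + 1) := by
  obtain ⟨k, rfl⟩ : ∃ k, n = k + 1 := ⟨n - 1, by omega⟩
  rw [show 2 * (k + 1) + 1 = (2 * k + 1) + 2 by ring, stern, if_neg (by omega),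
    show (2 * k + 1 + 2) / 2 = k + 1 by omega]

theorem eval_two (n : ℕ) : (stern n).eval 2 = (n : ℤ) := by
  induction n using Nat.strong_induction_on with
  | _ n ih =>
    rcases Nat.lt_or_ge n 2 with h | h
    · interval_cases n
      · rw [stern]; simp
      · rw [stern_one]; simp
    · rcases Nat.even_or_odd' n with ⟨m, hm | hm⟩
      · rw [hm, stern_even m (by omega), eval_mul, eval_X, ih m (by omega)]
        push_cast; ring
      · rw [hm, stern_odd m (by omega), eval_add, ih m (by omega), ih (m + 1) (by omega)]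
        push_cast; ring

theorem eval_one_pos (n : ℕ) (hn : 1 ≤ n) : 0 < (stern n).eval 1 := by
  induction n using Nat.strong_induction_on with
  | _ n ih =>
    rcases Nat.lt_or_ge n 2 with h | h
    · have : n = 1 := by omega
      subst this
      rw [stern_one]; simp
    · rcases Nat.even_or_odd' n with ⟨m, hm | hm⟩
      · rw [hm, stern_even m (by omega), eval_mul, eval_X, one_mul]
        exact ih m (by omega) (by omega)
      · rw [hm, stern_odd m (by omega), eval_add]
        have h1 := ih m (by omega) (by omega)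
        have h2 := ih (m + 1) (by omega) (by omega)
        omega

theorem eval_zero_odd (n : ℕ) : (stern (2 * n + 1)).eval 0 = 1 := by
  induction n using Nat.strong_induction_on with
  | _ n ih =>
    rcases Nat.lt_or_ge n 1 with h | h
    · have : n = 0 := by omega
      subst this
      rw [show 2 * 0 + 1 = 1 by rfl, stern_one]; simp
    · rw [stern_odd n h, eval_add]
      rcases Nat.even_or_odd' n with ⟨m, hm | hm⟩
      · rw [hm, ih m (by omega), stern_even m (by omega)]; simp
      · have e := ih m (by omega)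
        rw [hm, e, show 2 * m + 1 + 1 = 2 * (m + 1) by ring, stern_even (m + 1) (by omega)]
        simp

/-- the zero-free region for Stern polynomials -/
theorem stern_zero_free (n : ℕ) (hn : 1 ≤ n) (z : ℂ) (hz : ‖z - 2‖ ^ 2 ≤ ‖z - 1‖) :
    ((stern n).map (Int.castRingHom ℂ)).eval z ≠ 0 := by
  apply R487.Stern.zero_free z hz (fun k => ((stern k).map (Int.castRingHom ℂ)).eval z) _ _ _ n hn
  · simp [stern_one]
  · intro k hk
    simp only [stern_even k hk]
    simp
  · intro k hk
    simp only [stern_odd k hk]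
    simp

theorem prod_bound (R : Multiset ℂ) (hR : ∀ z ∈ R, ‖z - 1‖ < ‖z - 2‖ ^ 2) :
    (R.map fun z => ‖1 - z‖).prod ≤ ((R.map fun z => ‖2 - z‖).prod) ^ 2 ∧
      (R ≠ 0 → (R.map fun z => ‖1 - z‖).prod < ((R.map fun z => ‖2 - z‖).prod) ^ 2) := by
  induction R using Multiset.induction_on with
  | empty => simp
  | cons a s ih =>
    have ih' := (ih (fun z hz => hR z (Multiset.mem_cons_of_mem hz))).1
    have ha := hR a (Multiset.mem_cons_self a s)
    have e1 : ‖1 - a‖ = ‖a - 1‖ := norm_sub_rev _ _
    have e2 : ‖2 - a‖ = ‖a - 2‖ := norm_sub_rev _ _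
    have hpos : 0 < ((s.map fun z => ‖2 - z‖).prod) ^ 2 := by
      have : 0 < (s.map fun z => ‖2 - z‖).prod := by
        apply Multiset.prod_pos
        intro y hy
        obtain ⟨z, hz, rfl⟩ := Multiset.mem_map.mp hy
        have := hR z (Multiset.mem_cons_of_mem hz)
        rw [norm_sub_rev]
        by_contra hc
        have h0 : ‖z - 2‖ = 0 := le_antisymm (not_lt.mp hc) (norm_nonneg _)
        rw [h0] at this
        have h1 := norm_nonneg (z - 1)
        norm_num at this
        linarith
      positivity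
    have key : ((a ::ₘ s).map fun z => ‖1 - z‖).prod < (((a ::ₘ s).map fun z => ‖2 - z‖).prod) ^ 2 := by
      rw [Multiset.map_cons, Multiset.map_cons, Multiset.prod_cons, Multiset.prod_cons, mul_pow, e1, e2]
      calc ‖a - 1‖ * (s.map fun z => ‖1 - z‖).prod
          ≤ ‖a - 1‖ * ((s.map fun z => ‖2 - z‖).prod) ^ 2 :=
            mul_le_mul_of_nonneg_left ih' (norm_nonneg _)
        _ < ‖a - 2‖ ^ 2 * ((s.map fun z => ‖2 - z‖).prod) ^ 2 := mul_lt_mul_of_pos_right ha hpos
    exact ⟨key.le, fun _ => key⟩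

/-- a divisor of a Stern polynomial taking a value of absolute value `1` at `2` is constant -/
theorem natDegree_eq_zero (n : ℕ) (hn : 1 ≤ n) (f g : ℤ[X]) (hfg : stern n = f * g)
    (hf : IsUnit (f.eval 2)) : f.natDegree = 0 := by
  by_contra hdeg
  have hf0 : f ≠ 0 := by
    rintro rfl; simp at hdeg
  set F := f.map (Int.castRingHom ℂ) with hF
  have hinj : Function.Injective (Int.castRingHom ℂ) := Int.cast_injective
  have hF0 : F ≠ 0 := by
    rw [hF]; exact (Polynomial.map_ne_zero_iff hinj).mpr hf0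
  have hFdeg : F.natDegree = f.natDegree := natDegree_map_eq_of_injective hinj f
  have hlc : F.leadingCoeff = (f.leadingCoeff : ℂ) := leadingCoeff_map_of_injective hinj f
  have hsp : F.Splits := IsAlgClosed.splits F
  have hroots : F.roots ≠ 0 := by
    intro h0
    have := hsp.natDegree_eq_card_roots
    rw [h0, Multiset.card_zero, hFdeg] at this
    exact hdeg this
  have hR : ∀ z ∈ F.roots, ‖z - 1‖ < ‖z - 2‖ ^ 2 := by
    intro z hz
    by_contra hc
    push Not at hc
    apply stern_zero_free n hn z hc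
    rw [hfg, Polynomial.map_mul, eval_mul]
    have : F.eval z = 0 := (mem_roots hF0).mp hz
    rw [← hF, this, zero_mul]
  have hb := (prod_bound F.roots hR).2 hroots
  have hv : ∀ x : ℤ, ‖((f.eval x : ℤ) : ℂ)‖ = ‖(f.leadingCoeff : ℂ)‖ *
      (F.roots.map fun z => ‖(x : ℂ) - z‖).prod := by
    intro x
    have h1 : ((f.eval x : ℤ) : ℂ) = F.eval (x : ℂ) := by
      rw [hF, eval_intCast_map]; rfl
    rw [h1, hsp.eval_eq_prod_roots, norm_mul, hlc]
    congr 1
    rw [show ‖(F.roots.map fun z => (x : ℂ) - z).prod‖ =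
      ((F.roots.map fun z => (x : ℂ) - z).map (fun z => ‖z‖)).prod from
        map_multiset_prod (normHom : ℂ →*₀ ℝ) _, Multiset.map_map]
    rfl
  have h2 := hv 2
  have h1 := hv 1
  have hlc1 : 1 ≤ ‖(f.leadingCoeff : ℂ)‖ := by
    rw [Complex.norm_intCast]
    have : f.leadingCoeff ≠ 0 := leadingCoeff_ne_zero.mpr hf0
    exact_mod_cast Int.one_le_abs this
  have hf2 : ‖((f.eval 2 : ℤ) : ℂ)‖ = 1 := by
    rw [Complex.norm_intCast]
    exact_mod_cast Int.isUnit_iff_abs_eq.mp hf
  have hf1 : 1 ≤ ‖((f.eval 1 : ℤ) : ℂ)‖ := by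
    rw [Complex.norm_intCast]
    have : f.eval 1 ≠ 0 := by
      intro h0
      have := eval_one_pos n hn
      rw [hfg, eval_mul, h0, zero_mul] at this
      exact lt_irrefl _ this
    exact_mod_cast Int.one_le_abs this
  rw [hf2] at h2
  rw [h1] at hf1
  push_cast at h2 hf1
  set A := (F.roots.map fun z => ‖(1 : ℂ) - z‖).prod
  set B := (F.roots.map fun z => ‖(2 : ℂ) - z‖).prod
  set l := ‖(f.leadingCoeff : ℂ)‖
  have hl0 : 0 < l := by linarith
  have : l * A < l * (l * B ^ 2) := by
    apply mul_lt_mul_of_pos_left _ hl0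
    calc A < B ^ 2 := hb
      _ ≤ l * B ^ 2 := le_mul_of_one_le_left (sq_nonneg _) hlc1
  have e : l * (l * B ^ 2) = (l * B) ^ 2 := by ring
  rw [e, ← h2] at this
  linarith

theorem isUnit_of_eval (n : ℕ) (f g : ℤ[X]) (hfg : stern (2 * n + 1) = f * g)
    (hf : IsUnit (f.eval 2)) : IsUnit f := by
  have hd := natDegree_eq_zero (2 * n + 1) (by omega) f g hfg hf
  rw [eq_C_of_natDegree_eq_zero hd]
  apply IsUnit.map
  have h0 := eval_zero_odd n
  rw [hfg, eval_mul, ← coeff_zero_eq_eval_zero] at h0
  exact IsUnit.of_mul_eq_one _ h0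

/-- For every prime `p` the Stern polynomial `B p` is irreducible in `ℚ[X]`. -/
theorem result : ∀ p : ℕ, p.Prime → Irreducible ((stern p).map (Int.castRingHom ℚ)) := by
  intro p hp
  rcases hp.eq_two_or_odd' with rfl | hodd
  · have : stern 2 = X := by
      have := stern_even 1 le_rfl
      rw [stern_one, mul_one, mul_one] at this
      exact this
    rw [this, map_X]
    exact irreducible_X
  · obtain ⟨n, rfl⟩ := hodd
    have hprim : (stern (2 * n + 1)).IsPrimitive := by
      intro r hr
      obtain ⟨q, hq⟩ := hr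
      have h0 := eval_zero_odd n
      rw [hq, eval_mul, eval_C] at h0
      exact IsUnit.of_mul_eq_one _ h0
    rw [← IsPrimitive.Int.irreducible_iff_irreducible_map_cast hprim]
    have hpi : Prime (((2 * n + 1 : ℕ)) : ℤ) := Nat.prime_iff_prime_int.mp hp
    refine ⟨?_, ?_⟩
    · intro hu
      have := hu.map (evalRingHom (2 : ℤ))
      rw [coe_evalRingHom, eval_two] at this
      exact hpi.not_isUnit this
    · intro a b hab
      have h2 := eval_two (2 * n + 1)
      rw [hab, eval_mul] at h2
      rcases hpi.irreducible.isUnit_or_isUnit h2.symm with h | h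
      · exact Or.inl (isUnit_of_eval n a b hab h)
      · exact Or.inr (isUnit_of_eval n b a (by rw [hab, mul_comm]) h)

end Pool.Agent.Results.MP_201fbb_nt.PrimeIndexIrreducible
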